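import Pool.Agent.Helper86.SJ.Defs

set_option autoImplicit false

open Finset

namespace Pool.Agent.Helper28.SJ

theorem TOP : _root_.SJ.TOPStm := by
  classical
  intro k C hk
  refine ⟨k * C + 3 * k, fun n hn A E hA hE hEk hsrc => ?_⟩
  set W : Finset (Fin n) := E.biUnion id with hW
  have hWc : #W ≤ k * C := by
    refine (Finset.card_biUnion_le).trans ?_
    have h1 : ∑ a ∈ E, #(id a) = ∑ _a ∈ E, k := Finset.sum_congr rfl fun S hS => hEk S hS
    rw [h1, Finset.sum_const, smul_eq_mul, mul_comm]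
    exact Nat.mul_le_mul_left _ hE
  set V : Finset (Fin n) := Wᶜ with hV
  have hVc : 3 * k ≤ #V := by
    rw [hV, Finset.card_compl, Fintype.card_fin]
    omega
  have hdisj : ∀ S ∈ E, Disjoint S V := by
    intro S hS
    rw [Finset.disjoint_left]
    intro x hx hxV
    rw [hV, Finset.mem_compl] at hxV
    exact hxV (Finset.mem_biUnion.2 ⟨S, hS, hx⟩)
  -- sources of sets which meet `V`
  have hs : ∀ S : Finset (Fin n), #S = k → (∃ v ∈ S, v ∈ V) → ∃ f ∈ S, ∀ y ∈ S, y ≠ f → A f y := by
    rintro S hS ⟨v, hv, hvV⟩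
    exact hsrc S hS fun hSE => Finset.disjoint_left.1 (hdisj S hSE) hv hvV
  -- Step 1
  obtain ⟨v₁, hv₁, hv₁A⟩ : ∃ v₁ ∈ V, ∀ u ∈ V, u ≠ v₁ → A v₁ u := by
    obtain ⟨X0, hX0V, hX0k⟩ := Finset.exists_subset_card_eq (s := V) (n := k) (by omega)
    have hne : X0.Nonempty := Finset.card_pos.1 (by omega)
    obtain ⟨v0, hv0⟩ := hne
    obtain ⟨t0, ht0, ht0A⟩ := hs X0 hX0k ⟨v0, hv0, hX0V hv0⟩
    set P : Finset (Finset (Fin n)) := V.powerset.filter fun X =>
      k ≤ #X ∧ ∃ t ∈ X, ∀ u ∈ X, u ≠ t → A t u with hP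
    have hPne : P.Nonempty := ⟨X0, Finset.mem_filter.2 ⟨Finset.mem_powerset.2 hX0V, by omega,
      t0, ht0, ht0A⟩⟩
    obtain ⟨X, hX, hmax⟩ := Finset.exists_max_image P (fun X => #X) hPne
    obtain ⟨hXV, hXk, t, ht, htA⟩ := Finset.mem_filter.1 hX
    rw [Finset.mem_powerset] at hXV
    have hXeq : X = V := by
      by_contra hne
      obtain ⟨z, hzV, hzX⟩ := Finset.exists_of_ssubset (Finset.ssubset_iff_subset_ne.2 ⟨hXV, hne⟩)
      have hins : insert z X ∉ P := by
        intro hmem
        have := hmax _ hmem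
        rw [Finset.card_insert_of_notMem hzX] at this
        omega
      have hinsV : insert z X ⊆ V := Finset.insert_subset hzV hXV
      have hcardi : #(insert z X) = #X + 1 := Finset.card_insert_of_notMem hzX
      have htz : ¬ A t z := by
        intro h
        apply hins
        refine Finset.mem_filter.2 ⟨Finset.mem_powerset.2 hinsV, by omega, t,
          Finset.mem_insert_of_mem ht, fun u hu hut => ?_⟩
        rcases Finset.mem_insert.1 hu with rfl | hu
        · exact h
        · exact htA u hu hut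
      apply hins
      refine Finset.mem_filter.2 ⟨Finset.mem_powerset.2 hinsV, by omega, z,
        Finset.mem_insert_self _ _, fun u hu huz => ?_⟩
      have huX : u ∈ X := (Finset.mem_insert.1 hu).resolve_left huz
      have hsub : ({t, z, u} : Finset (Fin n)) ⊆ insert z X := by
        intro a ha
        simp only [Finset.mem_insert, Finset.mem_singleton] at ha
        rcases ha with rfl | rfl | rfl
        · exact Finset.mem_insert_of_mem ht
        · exact Finset.mem_insert_self _ _
        · exact hu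
      obtain ⟨S, hS1, hS2, hS3⟩ := Finset.exists_subsuperset_card_eq hsub
        (Finset.card_le_three.trans hk) (by omega)
      have htS : t ∈ S := hS1 (by simp)
      have hzS : z ∈ S := hS1 (by simp)
      have huS : u ∈ S := hS1 (by simp)
      obtain ⟨s, hsS, hsA⟩ := hs S hS3 ⟨t, htS, hXV ht⟩
      have hst : s ≠ t := by
        rintro rfl
        exact htz (hsA z hzS (fun h => hzX (h ▸ ht)))
      have hsz : s = z := by
        by_contra hsz
        have hsX : s ∈ X := (Finset.mem_insert.1 (hS2 hsS)).resolve_left hsz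
        exact hA _ _ (htA s hsX hst) (hsA t htS hst.symm)
      rw [← hsz]
      exact hsA u huS (by rw [hsz]; exact huz)
    subst hXeq
    exact ⟨t, ht, htA⟩
  -- Step 2
  have key : ∀ B : Finset (Fin n), #B ≤ k → v₁ ∈ B → ∃ s ∈ B, (∀ y ∈ B, y ≠ s → A s y) := by
    intro B hB hvB
    have hle : k ≤ #(B ∪ V) := le_trans (by omega) (Finset.card_le_card Finset.subset_union_right)
    obtain ⟨S, hS1, hS2, hS3⟩ := Finset.exists_subsuperset_card_eq
      (Finset.subset_union_left (s₁ := B) (s₂ := V)) hB hle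
    obtain ⟨s, hsS, hsA⟩ := hs S hS3 ⟨v₁, hS1 hvB, hv₁⟩
    refine ⟨s, ?_, fun y hy hys => hsA y (hS1 hy) hys⟩
    by_contra hsB
    have hsV : s ∈ V := (Finset.mem_union.1 (hS2 hsS)).resolve_left hsB
    have hne : s ≠ v₁ := fun h => hsB (h ▸ hvB)
    exact hA _ _ (hv₁A s hsV hne) (hsA v₁ (hS1 hvB) hne.symm)
  refine ⟨univ.filter fun z => A z v₁, V, v₁, hv₁, ?_, by omega, hdisj, ?_, ?_, ?_⟩
  · rw [Finset.mem_filter]
    rintro ⟨-, h⟩
    exact hA _ _ h h
  · intro t ht u hu
    have htv : A t v₁ := (Finset.mem_filter.1 ht).2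
    have huv : ¬ A u v₁ := fun h => hu (Finset.mem_filter.2 ⟨Finset.mem_univ _, h⟩)
    by_cases huv₁ : u = v₁
    · rw [huv₁]; exact htv
    obtain ⟨s, hsB, hsA⟩ := key {t, v₁, u} (Finset.card_le_three.trans hk) (by simp)
    have htv₁ : t ≠ v₁ := by rintro rfl; exact hA _ _ htv htv
    have htu : t ≠ u := by rintro rfl; exact huv htv
    simp only [Finset.mem_insert, Finset.mem_singleton] at hsB
    rcases hsB with rfl | rfl | rfl
    · exact hsA u (by simp) htu.symm
    · exact absurd (hsA t (by simp) htv₁) (hA _ _ htv)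
    · exact absurd (hsA v₁ (by simp) (Ne.symm huv₁)) huv
  · intro t ht t' ht' htt
    have htv : A t v₁ := (Finset.mem_filter.1 ht).2
    have htv' : A t' v₁ := (Finset.mem_filter.1 ht').2
    have htv₁ : t ≠ v₁ := by rintro rfl; exact hA _ _ htv htv
    obtain ⟨s, hsB, hsA⟩ := key {t, v₁, t'} (Finset.card_le_three.trans hk) (by simp)
    simp only [Finset.mem_insert, Finset.mem_singleton] at hsB
    rcases hsB with rfl | rfl | rfl
    · exact Or.inl (hsA t' (by simp) htt.symm)
    · exact absurd (hsA t (by simp) htv₁) (hA _ _ htv)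
    · exact Or.inr (hsA t (by simp) htt)
  · intro u hu huv₁
    have huv : ¬ A u v₁ := fun h => hu (Finset.mem_filter.2 ⟨Finset.mem_univ _, h⟩)
    obtain ⟨s, hsB, hsA⟩ := key {v₁, u} (Finset.card_le_two.trans (by omega)) (by simp)
    simp only [Finset.mem_insert, Finset.mem_singleton] at hsB
    rcases hsB with rfl | rfl
    · exact hsA u (by simp) huv₁
    · exact absurd (hsA v₁ (by simp) (Ne.symm huv₁)) huv

end Pool.Agent.Helper28.SJ
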